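import Mathlib
import Pool.Agent.H618Z.BethCube

set_option autoImplicit false

/-!
# A compact D-separable space without a sigma-disjoint pi-base
-/

namespace Pool.Agent.Results.MP_1644e0_gt.BethOmegaCube

/-- `X` is D-separable: from every sequence of dense sets one can choose discrete subsets whose
union is dense. -/
def DSeparable (X : Type) [TopologicalSpace X] : Prop :=
  ∀ D : ℕ → Set X, (∀ n, Dense (D n)) →
    ∃ F : ℕ → Set X, (∀ n, F n ⊆ D n ∧ DiscreteTopology (F n)) ∧ Dense (⋃ n, F n)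

/-- `X` has a pi-base that is the union of a sequence of families of pairwise disjoint sets. -/
def HasSigmaDisjointPiBase (X : Type) [TopologicalSpace X] : Prop :=
  ∃ B : ℕ → Set (Set X), (∀ n, (B n).PairwiseDisjoint id) ∧
    (∀ n, ∀ U ∈ B n, IsOpen U ∧ U.Nonempty) ∧
    ∀ V : Set X, IsOpen V → V.Nonempty → ∃ n, ∃ U ∈ B n, U ⊆ V

theorem result : ∃ (X : Type) (_ : TopologicalSpace X), CompactSpace X ∧ T2Space X ∧
    DSeparable X ∧ ¬ HasSigmaDisjointPiBase X := by
  obtain ⟨I, rk, h1, h2, h3⟩ := Pool.Agent.H618Z.BethCube.exists_index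
  refine ⟨I → ZMod 2, inferInstance, inferInstance, inferInstance,
    Pool.Agent.H618Z.BethCube.dSep h1 h2 rk h3, ?_⟩
  rintro ⟨B, hB1, hB2, hB3⟩
  exact Pool.Agent.H618Z.BethCube.no_base h1 h2 ℕ B hB1 hB2 hB3

end Pool.Agent.Results.MP_1644e0_gt.BethOmegaCube
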